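import Pool.Agent.H19.CritUnion

set_option autoImplicit false

namespace Pool.Agent.Results.MP_b82347_co.Three

open SimpleGraph Pool.Agent.H19.CritUnion

/-- A graph `H` with vertex set inside `V` (a subgraph of the complete graph on `V`) is
`k`-critical: `χ(H) = k` and every proper subgraph has smaller chromatic number. -/
def Critical {V : Type} (H : (⊤ : SimpleGraph V).Subgraph) (k : ℕ) : Prop :=
  H.coe.chromaticNumber = k ∧ ∀ H' < H, H'.coe.chromaticNumber < k

theorem coe_col {V : Type} (H : (⊤ : SimpleGraph V).Subgraph) (m : ℕ)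
    (h : H.spanningCoe.Colorable m) : H.coe.Colorable m := by
  obtain ⟨c⟩ := h
  exact ⟨Coloring.mk (fun x => c x.1) fun hxy => c.valid hxy⟩

theorem crit {V : Type} (H : (⊤ : SimpleGraph V).Subgraph) (m : ℕ) (hm : 0 < m)
    (h : Critical H (m + 1)) : ¬ H.spanningCoe.Colorable m ∧ EdgeCrit H.spanningCoe m := by
  classical
  constructor
  · intro hc
    have := (coe_col H m hc).chromaticNumber_le
    rw [h.1] at this
    exact absurd (by exact_mod_cast this : m + 1 ≤ m) (by omega)
  · intro v w hvw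
    have hlt : H.deleteEdges {s(v, w)} < H := by
      refine lt_of_le_of_ne (Subgraph.deleteEdges_le _) fun e => ?_
      have : (H.deleteEdges {s(v, w)}).Adj v w := by rw [e]; exact hvw
      simp at this
    have h2 : (H.deleteEdges {s(v, w)}).coe.chromaticNumber ≤ m := by
      have := h.2 _ hlt
      rw [Nat.cast_add, Nat.cast_one] at this
      exact Order.le_of_lt_add_one this
    obtain ⟨c⟩ := chromaticNumber_le_iff_colorable.mp h2
    refine ⟨fun x => if hx : x ∈ H.verts then c ⟨x, hx⟩ else ⟨0, hm⟩, fun x y hxy hs => ?_⟩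
    have hx : x ∈ H.verts := H.edge_vert hxy
    have hy : y ∈ H.verts := H.edge_vert (H.adj_symm hxy)
    simp only [hx, hy, dif_pos]
    exact c.valid (by simpa using ⟨hxy, by simpa using hs⟩)

theorem result (l : ℕ) (hl : 4 ≤ l) (V : Type) [Finite V]
    (H₁ H₂ : (⊤ : SimpleGraph V).Subgraph) (h₁ : Critical H₁ 3) (h₂ : Critical H₂ l) :
    (H₁ ⊔ H₂).coe.chromaticNumber ≤ ((3 - 1) * (l - 1) : ℕ) := by
  obtain ⟨m, rfl⟩ : ∃ m, l = m + 1 := ⟨l - 1, by omega⟩
  obtain ⟨a1, a2⟩ := crit H₁ 2 (by omega) h₁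
  obtain ⟨b1, b2⟩ := crit H₂ m (by omega) h₂
  exact (coe_col (H₁ ⊔ H₂) _ (main _ _ m (by omega) a1 a2 b1 b2)).chromaticNumber_le

end Pool.Agent.Results.MP_b82347_co.Three
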